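import Pool.Agent.V11230.ResetTuple
import Pool.Agent.NPC.Dec

/-!
# A reset tuple of an `m`-primitive automaton in polynomial time

Reset tuples are upward closed, because the automaton is complete.  Take a reset tuple `α` with
target `q₀`.  By the pigeonhole principle each state has a word of length less than `n * (n!)^m` to
`q₀` with letter counts congruent to `α` modulo `n!`.  After it one reads `n + n! * x_i` times the
letter `i`, for `i = 1, …, m`; the state reached does not depend on the `x_i`, since after `n`
letters `i` one is on a cycle of this letter, whose length divides `n!`.  By the choice of the `x_i`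
the letter counts become equal for all states.  This shows that the constant tuple `(N, …, N)` with
`N = 2 ^ (n² (m + 1) + n + 2) - 1` is a reset tuple.
-/

set_option autoImplicit false

namespace Pool.Agent.NPC.V11230.RTA

open Pool.Agent.NPC Pool.Agent.V11230.RT

/-- The transition tables, written as lists. -/
def code {n m : ℕ} (a : Aut n m) : List (List ℕ) :=
  List.ofFn (fun i => List.ofFn (fun p => (a i p : ℕ)))

/-- the number of states -/
def states (I : List (List ℕ)) : ℕ := (I.head?.getD []).length

/-- the exponent -/
def expo (I : List (List ℕ)) : ℕ := states I * states I * (I.length + 1) + states I + 2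

/-- the output -/
def out (I : List (List ℕ)) : List ℕ :=
  I.map (fun _ => valB ((List.replicate (expo I) ()).map (fun _ => true)))

theorem states_code {n m : ℕ} (a : Aut n m) (hm : 0 < m) : states (code a) = n := by
  obtain ⟨m, rfl⟩ : ∃ k, m = k + 1 := ⟨m - 1, by omega⟩
  unfold states code
  rw [List.ofFn_succ]
  simp

theorem length_code {n m : ℕ} (a : Aut n m) : (code a).length = m := by
  unfold code
  rw [List.length_ofFn]

theorem valB_true (k : ℕ) : valB ((List.replicate k ()).map (fun _ => true)) = 2 ^ k - 1 := by
  induction k with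
  | zero => rfl
  | succ k ih =>
    rw [List.replicate_succ, List.map_cons]
    change valB (true :: _) = _
    have h : ∀ l, valB (true :: l) = 1 + 2 * valB l := fun l => rfl
    rw [h, ih, pow_succ]
    have := Nat.one_le_two_pow (n := k)
    omega

theorem out_code {n m : ℕ} (a : Aut n m) (hm : 0 < m) :
    out (code a) = List.ofFn (fun _ : Fin m => 2 ^ (n * n * (m + 1) + n + 2) - 1) := by
  unfold out
  rw [valB_true]
  unfold expo
  rw [states_code a hm, length_code a]
  apply List.ext_getElem
  · rw [List.length_map, length_code, List.length_ofFn]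
  · intro i h1 h2
    rw [List.getElem_map, List.getElem_ofFn]

theorem bound (n m : ℕ) :
    n * n.factorial ^ m + n + n.factorial ≤ 2 ^ (n * n * (m + 1) + n + 2) - 1 := by
  have h1 : n ≤ 2 ^ n := Nat.lt_two_pow_self.le
  have h2 : n.factorial ≤ 2 ^ (n * n) := by
    refine (Nat.factorial_le_pow n).trans ?_
    rw [pow_mul]
    exact Nat.pow_le_pow_left h1 n
  have h3 : n * n.factorial ^ m ≤ 2 ^ (n * n * (m + 1) + n) := by
    calc n * n.factorial ^ m ≤ 2 ^ n * (2 ^ (n * n)) ^ m :=
          Nat.mul_le_mul h1 (Nat.pow_le_pow_left h2 m)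
      _ = 2 ^ (n * n * m + n) := by rw [← pow_mul, ← pow_add]; congr 1; ring
      _ ≤ 2 ^ (n * n * (m + 1) + n) := Nat.pow_le_pow_right (by norm_num) (by nlinarith)
  have h4 : n ≤ 2 ^ (n * n * (m + 1) + n) :=
    h1.trans (Nat.pow_le_pow_right (by norm_num) (by omega))
  have h5 : n.factorial ≤ 2 ^ (n * n * (m + 1) + n) :=
    h2.trans (Nat.pow_le_pow_right (by norm_num) (by nlinarith))
  have h6 : 2 ^ (n * n * (m + 1) + n + 2) = 4 * 2 ^ (n * n * (m + 1) + n) := by
    rw [pow_add]; ring
  have h7 : 1 ≤ 2 ^ (n * n * (m + 1) + n) := Nat.one_le_two_pow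
  omega

/-! ### Polynomial time -/

theorem poly_out : Poly out := by
  have hid : Poly (fun I : List (List ℕ) => I) := Poly.id
  have hs : UPoly states := UPoly.length (Poly.head?_getD hid [])
  have he : UPoly expo :=
    UPoly.add (UPoly.add (UPoly.mul (UPoly.mul hs hs) (UPoly.add (UPoly.length hid)
      (UPoly.const 1))) hs) (UPoly.const 2)
  have hv : Poly (fun I => valB ((List.replicate (expo I) ()).map (fun _ => true))) :=
    Poly.valBits (Poly.map (F := fun _ _ => true) he (Poly.const true))
  exact Poly.map (F := fun I _ => valB ((List.replicate (expo I) ()).map (fun _ => true))) hid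
    (hv.comp (Poly.fst Poly.id))

/-- the algorithm -/
def alg (x : List Bool) : List Bool := bits (out ((unbits (List (List ℕ)) x).getD []))

theorem polyTime_alg : PolyTime alg := by
  refine polyTime_bits (g := fun x => out ((unbits (List (List ℕ)) x).getD [])) ?_
  exact poly_out.comp ((Poly.optCases (o := fun x => unbits (List (List ℕ)) x)
    (g := fun _ => ([] : List (List ℕ))) (h := fun _ I => I) poly_unbits (Poly.const [])
    (Poly.snd Poly.id)).congr fun x => by cases unbits (List (List ℕ)) x <;> rfl)

theorem alg_spec {n m : ℕ} {a : Aut n m} (h : MSync a) :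
    ∃ α : Fin m → ℕ, IsReset a α ∧ alg (bits (code a)) = bits (List.ofFn α) := by
  have hm : 0 < m := by
    obtain ⟨α, h1, _⟩ := h
    obtain ⟨i, _, _⟩ := Finset.exists_ne_zero_of_sum_ne_zero (by omega : ∑ i, α i ≠ 0)
    exact i.pos
  refine ⟨_, reset_const h (bound n m), ?_⟩
  unfold alg
  rw [unbits_bits, Option.getD_some, out_code a hm]

end Pool.Agent.NPC.V11230.RTA

namespace Pool.Agent.Results.MP_f1b42c_lc.ResetTuplePolyTime

open Pool.Agent.NPC Pool.Agent.V11230.RT Pool.Agent.NPC.V11230.RTA

/-- **There is a polynomial-time algorithm that computes a reset `m`-tuple of each `m`-primitive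
automaton**, and even of each `m`-synchronizing automaton. -/
theorem result :
    ∃ A : List Bool → List Bool, PolyTime A ∧
      (∀ (n m : ℕ) (a : Aut n m), 0 < n → MPrimitive a →
        ∃ α : Fin m → ℕ, IsReset a α ∧ A (bits (code a)) = bits (List.ofFn α)) ∧
      (∀ (n m : ℕ) (a : Aut n m), MSync a →
        ∃ α : Fin m → ℕ, IsReset a α ∧ A (bits (code a)) = bits (List.ofFn α)) :=
  ⟨alg, polyTime_alg, fun _ _ _ hn h => alg_spec (h.mSync hn), fun _ _ _ h => alg_spec h⟩

end Pool.Agent.Results.MP_f1b42c_lc.ResetTuplePolyTime
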